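import Pool.Agent.Helper12.D4.Ai
import Pool.Agent.Helper37.SD.Wt

/-!
# Project D4: the square of a regular 2-form
-/

set_option autoImplicit false

namespace Pool.Agent.Helper84.D4

open Pool.Agent.Helper88.D4 Pool.Agent.Helper12.D4 Pool.Agent.Helper37.SD Pool.Agent.Helper20.TS

variable {K : Type} [Field K] [Algebra ℂ K]

theorem form_swap {ω : Form K} (h : ∀ D, ω D D = 0) (D E : Derivation ℂ K K) : ω D E = -ω E D := by
  have h1 := h (D + E)
  rw [map_add, map_add, LinearMap.add_apply, LinearMap.add_apply, h, h] at h1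
  linear_combination h1

theorem form_left (ω : Form K) {E : Derivation ℂ K K} {b : Fin 4 → K}
    {e : Fin 4 → Derivation ℂ K K} (hE : E = ∑ i, b i • e i) (D : Derivation ℂ K K) :
    ω E D = b 0 * ω (e 0) D + b 1 * ω (e 1) D + b 2 * ω (e 2) D + b 3 * ω (e 3) D := by
  rw [hE, map_sum, LinearMap.sum_apply, Fin.sum_univ_four]
  simp only [map_smul, LinearMap.smul_apply, smul_eq_mul]

theorem form_right (ω : Form K) {E : Derivation ℂ K K} {b : Fin 4 → K}
    {e : Fin 4 → Derivation ℂ K K} (hE : E = ∑ i, b i • e i) (D : Derivation ℂ K K) :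
    ω D E = b 0 * ω D (e 0) + b 1 * ω D (e 1) + b 2 * ω D (e 2) + b 3 * ω D (e 3) := by
  rw [hE, map_sum, Fin.sum_univ_four]
  simp only [map_smul, smul_eq_mul]

/-- The Pfaffian in terms of a frame. -/
theorem pf_frame {ω : Form K} (h : ∀ D, ω D D = 0) {D e : Fin 4 → Derivation ℂ K K}
    {A : Fin 4 → Fin 4 → K} (hD : ∀ i, D i = ∑ j, A i j • e j) :
    pf ω D = (Matrix.of A).det * pf ω e := by
  have s01 := form_swap h (e 1) (e 0)
  have s02 := form_swap h (e 2) (e 0)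
  have s03 := form_swap h (e 3) (e 0)
  have s12 := form_swap h (e 2) (e 1)
  have s13 := form_swap h (e 3) (e 1)
  have s23 := form_swap h (e 3) (e 2)
  unfold pf
  simp only [form_left ω (hD _), form_right ω (hD _), h, s01, s02, s03, s12, s13, s23]
  rw [Matrix.det_succ_row_zero]
  simp only [Matrix.det_fin_three, Fin.sum_univ_four, Matrix.submatrix_apply, Matrix.of_apply]
  simp [Fin.succAbove, Fin.lt_def]
  ring

variable {J : Bra K}

theorem dt_dfr (h : IsAlt J) {z : Fin 4 → K} (hz : brk J z ≠ 0) : dt (dfr J z) z = 1 := by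
  have h1 : (Matrix.of fun i j => dfr J z i (z j)) = (1 : Matrix (Fin 4) (Fin 4) K) := by
    ext i j
    rw [Matrix.of_apply, dfr_apply h hz, Matrix.one_apply]
  rw [dt, h1, Matrix.det_one]

theorem dt_update_dfr (h : IsAlt J) {z : Fin 4 → K} (hz : brk J z ≠ 0) (i : Fin 4)
    (E : Derivation ℂ K K) : dt (Function.update (dfr J z) i E) z = E (z i) := by
  have h1 : (Matrix.of fun a b => (Function.update (dfr J z) i E) a (z b)) =
      (1 : Matrix (Fin 4) (Fin 4) K).updateRow i (fun b => E (z b)) := by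
    ext a b
    rw [Matrix.of_apply, Matrix.updateRow_apply]
    by_cases ha : a = i
    · subst ha
      rw [Function.update_self, if_pos rfl]
    · rw [Function.update_of_ne ha, if_neg ha, dfr_apply h hz, Matrix.one_apply]
  rw [dt, h1, ← Matrix.cramer_transpose_apply, Matrix.transpose_one, Matrix.cramer_one,
    Module.End.one_apply]

/-- The square of a 2-form is a multiple of the volume form. -/
theorem pf_prop (h : IsAlt J) (ht : Algebra.trdeg ℂ K = 4) {ω : Form K} (ha : ∀ D, ω D D = 0)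
    {z : Fin 4 → K} (hz : brk J z ≠ 0) (D : Fin 4 → Derivation ℂ K K) (f : Fin 4 → K) :
    brk J z * pf ω (dfr J z) * dt D f = brk J f * pf ω D := by
  have h1 : pf ω D = dt D z * pf ω (dfr J z) :=
    pf_frame ha fun i => dfr_sum h ht hz (D i)
  have h2 := s_JD K J ht h D f z
  rw [h1]
  linear_combination (-pf ω (dfr J z)) * h2

theorem J_eq_0 {z : Fin 4 → K} (hz : brk J z ≠ 0) (x : K) :
    J (z 1) (z 2) (z 3) x = brk J z * dfr J z 0 x := by
  have : dfr J z 0 x = (brk J z)⁻¹ * J (z 1) (z 2) (z 3) x := rfl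
  rw [this, mul_inv_cancel_left₀ hz]

theorem J_eq_1 (h : IsAlt J) {z : Fin 4 → K} (hz : brk J z ≠ 0) (x : K) :
    J x (z 2) (z 3) (z 0) = brk J z * dfr J z 1 x := by
  have : dfr J z 1 x = -(brk J z)⁻¹ * J (z 0) (z 2) (z 3) x := rfl
  rw [this, l1 h (z 0) x (z 2) (z 3)]
  field_simp

theorem J_eq_2 (h : IsAlt J) {z : Fin 4 → K} (hz : brk J z ≠ 0) (x : K) :
    J (z 1) x (z 3) (z 0) = brk J z * dfr J z 2 x := by
  have : dfr J z 2 x = (brk J z)⁻¹ * J (z 0) (z 1) (z 3) x := rfl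
  rw [this, l2 h (z 0) (z 1) x (z 3)]
  field_simp

theorem J_eq_3 (h : IsAlt J) {z : Fin 4 → K} (hz : brk J z ≠ 0) (x : K) :
    J (z 1) (z 2) x (z 0) = brk J z * dfr J z 3 x := by
  have : dfr J z 3 x = -(brk J z)⁻¹ * J (z 0) (z 1) (z 2) x := rfl
  rw [this, l3 h (z 0) (z 1) (z 2) x]
  field_simp

/-- The degree of the square of a homogeneous 2-form. -/
theorem pf_hom (h : IsAlt J) (ht : Algebra.trdeg ℂ K = 4) {ξ : Derivation ℂ K K} {a k : ℝ}
    (hJ : HomBra ξ a J) {ω : Form K} (ha : ∀ D, ω D D = 0) (hω : HomForm ξ k ω)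
    {z : Fin 4 → K} (hz : brk J z ≠ 0) : ξ (brk J z * pf ω (dfr J z)) =
      ((2 * k - a : ℝ) : ℂ) • (brk J z * pf ω (dfr J z)) := by
  set e := dfr J z with he
  have hE : ∀ i, ⁅ξ, e i⁆ = ∑ j, (-(e i (ξ (z j)))) • e j := by
    intro i
    rw [he, dfr_sum h ht hz ⁅ξ, dfr J z i⁆]
    apply Finset.sum_congr rfl
    intro j _
    congr 1
    rw [Derivation.commutator_apply, dfr_apply h hz]
    have : ξ (if i = j then 1 else 0) = 0 := by
      split_ifs
      · exact ξ.map_one_eq_zero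
      · exact map_zero ξ
    rw [this, zero_sub]
  have s01 := form_swap ha (e 1) (e 0)
  have s02 := form_swap ha (e 2) (e 0)
  have s03 := form_swap ha (e 3) (e 0)
  have s12 := form_swap ha (e 2) (e 1)
  have s13 := form_swap ha (e 3) (e 1)
  have s23 := form_swap ha (e 3) (e 2)
  have hW : ∀ i j, ξ (ω (e i) (e j)) = (k : ℂ) • ω (e i) (e j) + ω ⁅ξ, e i⁆ (e j) +
      ω (e i) ⁅ξ, e j⁆ := by
    intro i j
    rw [← hω (e i) (e j)]
    ring
  have hb : ξ (brk J z) = brk J z * (e 0 (ξ (z 0)) + e 1 (ξ (z 1)) + e 2 (ξ (z 2)) +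
      e 3 (ξ (z 3))) - (a : ℂ) • brk J z := by
    have h1 := hJ (z 0) (z 1) (z 2) (z 3)
    have h2 : brk J z = J (z 1) (z 2) (z 3) (z 0) := rfl
    rw [J_eq_0 hz (ξ (z 0)), J_eq_1 h hz (ξ (z 1)), J_eq_2 h hz (ξ (z 2)),
      J_eq_3 h hz (ξ (z 3)), ← h2] at h1
    rw [h1]
    ring
  have hp : ξ (pf ω e) = ((2 * k : ℝ) : ℂ) • pf ω e - (e 0 (ξ (z 0)) + e 1 (ξ (z 1)) +
      e 2 (ξ (z 2)) + e 3 (ξ (z 3))) * pf ω e := by
    unfold pf
    simp only [map_add, map_sub, Derivation.leibniz, smul_eq_mul, hW, Algebra.smul_def]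
    simp only [form_left ω (hE _), form_right ω (hE _), ha, s01, s02, s12, s13, s23]
    push_cast
    simp only [map_ofNat]
    ring
  rw [Derivation.leibniz, hb, hp]
  simp only [smul_eq_mul, Algebra.smul_def]
  push_cast
  simp only [map_ofNat]
  ring

/-! ## frames at a prime divisor -/

theorem pres_dfr {R : Subalgebra ℂ K} (hR : ∀ x ∈ R, ∀ y ∈ R, ∀ z ∈ R, ∀ w ∈ R, J y z w x ∈ R)
    {f : Fin 4 → K} (hf : ∀ i, f i ∈ R) (hz : brk J f ≠ 0) (i : Fin 4) :
    Pres R (brk J f • dfr J f i) := by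
  intro x hx
  have key : ∀ r s t : K, r ∈ R → s ∈ R → t ∈ R →
      (brk J f • ((brk J f)⁻¹ • J r s t)) x ∈ R := by
    intro r s t hr hs ht
    rw [smul_smul, mul_inv_cancel₀ hz, one_smul]
    exact hR x hx r hr s hs t ht
  have key' : ∀ r s t : K, r ∈ R → s ∈ R → t ∈ R →
      (brk J f • (-(brk J f)⁻¹ • J r s t)) x ∈ R := by
    intro r s t hr hs ht
    rw [smul_smul, mul_neg, mul_inv_cancel₀ hz, neg_smul, one_smul]
    exact R.neg_mem (hR x hx r hr s hs t ht)
  fin_cases i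
  · exact key _ _ _ (hf 1) (hf 2) (hf 3)
  · exact key' _ _ _ (hf 0) (hf 2) (hf 3)
  · exact key _ _ _ (hf 0) (hf 1) (hf 3)
  · exact key' _ _ _ (hf 0) (hf 1) (hf 2)

theorem ge_of_mem {R : Subalgebra ℂ K} {u : RVal K} (hu : PDiv R u) {x : K} (hx : x ∈ R) :
    u.Ge 0 x := by
  by_cases h : x = 0
  · exact Or.inl h
  · exact Or.inr (hu.nonneg x hx h)

theorem ge_mul0 {u : RVal K} {x y : K} (hx : u.Ge 0 x) (hy : u.Ge 0 y) : u.Ge 0 (x * y) := by
  have := u.ge_mul hx hy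
  rwa [add_zero] at this

/-- a frame in `R` at a prime divisor -/
theorem ex_frame (hUN : S_UN) {R : Subalgebra ℂ K} {ξ : Derivation ℂ K K} {a : ℝ}
    (hC : Cone4 R ξ J a) {u : RVal K} (hu : PDiv R u) :
    ∃ f : Fin 4 → K, (∀ i, f i ∈ R) ∧ brk J f ≠ 0 ∧ u.val (brk J f) = 0 := by
  obtain ⟨p, hp, hp0, hpv⟩ := hu.unif
  obtain ⟨x, hx, y, hy, z, hz, hne, hv⟩ := hUN K R ξ J a hC u hu p hp0 hpv
  refine ⟨![p, x, y, z], ?_, ?_, ?_⟩
  · intro i
    fin_cases i
    · exact hp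
    · exact hx
    · exact hy
    · exact hz
  · rwa [brk_apply]
  · rwa [brk_apply]

theorem ge_inv {u : RVal K} {b : K} (hb : b ≠ 0) (hv : u.val b = 0) : u.Ge 0 b⁻¹ :=
  Or.inr (by rw [u.val_inv hb, hv, neg_zero])

theorem ge_apply {R : Subalgebra ℂ K} {u : RVal K} (hu : PDiv R u) {b : K} (hb : b ≠ 0)
    (hv : u.val b = 0) {E : Derivation ℂ K K} (hE : Pres R (b • E)) {x : K} (hx : x ∈ R) :
    u.Ge 0 (E x) := by
  have h1 := ge_mul0 (ge_inv hb hv) (ge_of_mem hu (hE x hx))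
  rwa [Derivation.smul_apply, smul_eq_mul, inv_mul_cancel_left₀ hb] at h1

theorem ge_form {R : Subalgebra ℂ K} {u : RVal K} (hu : PDiv R u) {b : K} (hb : b ≠ 0)
    (hv : u.val b = 0) {ω : Form K} (hω : IsReg R ω) {E E' : Derivation ℂ K K}
    (hE : Pres R (b • E)) (hE' : Pres R (b • E')) : u.Ge 0 (ω E E') := by
  have h1 := hω.reg _ _ hE hE'
  rw [map_smul, map_smul, LinearMap.smul_apply, smul_eq_mul, smul_eq_mul] at h1
  have h2 := ge_mul0 (ge_inv hb hv) (ge_mul0 (ge_inv hb hv) (ge_of_mem hu h1))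
  rwa [inv_mul_cancel_left₀ hb, inv_mul_cancel_left₀ hb] at h2

theorem ge_pf {u : RVal K} {ω : Form K} {D : Fin 4 → Derivation ℂ K K}
    (h : ∀ i j, i ≠ j → u.Ge 0 (ω (D i) (D j))) : u.Ge 0 (pf ω D) := by
  unfold pf
  refine u.ge_add (u.ge_sub (ge_mul0 (h _ _ ?_) (h _ _ ?_)) (ge_mul0 (h _ _ ?_) (h _ _ ?_)))
    (ge_mul0 (h _ _ ?_) (h _ _ ?_)) <;> decide

/-- S_PF -/
theorem s_PF (hUN : S_UN) (hEX1 : S_EX1) : S_PF := by
  intro K _ _ R ξ J a hC ω hω
  obtain ⟨x, y, z, w, hne⟩ := hC.alt.ne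
  have hz : brk J ![x, y, z, w] ≠ 0 := by rwa [brk_apply]
  generalize ![x, y, z, w] = z at hz
  refine ⟨brk J z * pf ω (dfr J z), ?_, pf_prop hC.alt hC.trdeg hω.alt hz,
    fun k hk => pf_hom hC.alt hC.trdeg hC.hom hω.alt hk hz⟩
  by_contra hcon
  obtain ⟨u, hu, huv⟩ := hEX1 K R hC.frac hC.fg hC.normal _ hcon
  obtain ⟨f, hf, hf0, hfv⟩ := ex_frame hUN hC hu
  have h1 := pf_prop hC.alt hC.trdeg hω.alt hz (dfr J f) f
  rw [dt_dfr hC.alt hf0, mul_one] at h1
  have h2 : u.Ge 0 (brk J f * pf ω (dfr J f)) :=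
    ge_mul0 (Or.inr hfv.ge) (ge_pf fun i j _ => ge_form hu hf0 hfv hω
      (pres_dfr hC.reg hf hf0 i) (pres_dfr hC.reg hf hf0 j))
  rw [← h1] at h2
  rcases h2 with h2 | h2
  · rw [h2] at hcon
    exact hcon R.zero_mem
  · linarith

theorem pf_update_zero {ω : Form K} (ha : ∀ D, ω D D = 0) (e : Fin 4 → Derivation ℂ K K)
    {D : Derivation ℂ K K} (hD : ∀ E, ω D E = 0) (i : Fin 4) : pf ω (Function.update e i D) = 0 := by
  have hD' : ∀ E, ω E D = 0 := fun E => by rw [form_swap ha, hD, neg_zero]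
  unfold pf
  fin_cases i <;> simp [Function.update, hD, hD']

/-- S_ND -/
theorem s_ND (hUN : S_UN) (hEX1 : S_EX1) : S_ND := by
  intro K _ _ R ξ J a hC ω hω t ht hpf
  have ht' : algebraMap ℂ K t ≠ 0 := (map_ne_zero _).mpr ht
  refine { toIsReg := hω, inj := fun D hD => ?_, perfect := fun D hD x hx => ?_ }
  · obtain ⟨x, y, z, w, hne⟩ := hC.alt.ne
    have hz : brk J ![x, y, z, w] ≠ 0 := by rwa [brk_apply]
    generalize ![x, y, z, w] = z at hz
    have h1 : ∀ i, D (z i) = 0 := by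
      intro i
      have h2 := hpf (Function.update (dfr J z) i D) z
      rw [dt_update_dfr hC.alt hz, pf_update_zero hω.alt _ hD, mul_zero] at h2
      exact (mul_eq_zero.1 h2).resolve_left ht'
    rw [dfr_sum hC.alt hC.trdeg hz D]
    exact Finset.sum_eq_zero fun i _ => by rw [h1 i, zero_smul]
  · by_contra hcon
    obtain ⟨u, hu, huv⟩ := hEX1 K R hC.frac hC.fg hC.normal _ hcon
    obtain ⟨f, hf, hf0, hfv⟩ := ex_frame hUN hC hu
    have hpr := fun i => pres_dfr hC.reg hf hf0 i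
    have h1 : ∀ i, u.Ge 0 (ω D (dfr J f i)) := by
      intro i
      have h2 := hD _ (hpr i)
      rw [map_smul, smul_eq_mul] at h2
      have h3 := ge_mul0 (ge_inv hf0 hfv) (ge_of_mem hu h2)
      rwa [inv_mul_cancel_left₀ hf0] at h3
    have h1' : ∀ i, u.Ge 0 (ω (dfr J f i) D) := by
      intro i
      rw [form_swap hω.alt]
      exact u.ge_neg (h1 i)
    have h2 : ∀ i, u.Ge 0 (D (f i)) := by
      intro i
      have h3 := hpf (Function.update (dfr J f) i D) f
      rw [dt_update_dfr hC.alt hf0] at h3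
      have h4 : D (f i) = (algebraMap ℂ K t)⁻¹ *
          (brk J f * pf ω (Function.update (dfr J f) i D)) := by
        rw [← h3, inv_mul_cancel_left₀ ht']
      rw [h4]
      refine ge_mul0 (ge_inv ht' (u.map_const t ht)) (ge_mul0 (Or.inr hfv.ge) (ge_pf ?_))
      intro j l hjl
      by_cases hj : j = i
      · subst hj
        rw [Function.update_self, Function.update_of_ne (Ne.symm hjl)]
        exact h1 l
      · rw [Function.update_of_ne hj]
        by_cases hl : l = i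
        · subst hl
          rw [Function.update_self]
          exact h1' j
        · rw [Function.update_of_ne hl]
          exact ge_form hu hf0 hfv hω (hpr j) (hpr l)
    have h3 : u.Ge 0 (D x) := by
      rw [dfr_sum hC.alt hC.trdeg hf0 D, der_sum]
      refine u.ge_sum _ _ fun i _ => ?_
      rw [Derivation.smul_apply, smul_eq_mul]
      exact ge_mul0 (h2 i) (ge_apply hu hf0 hfv (hpr i) hx)
    rcases h3 with h3 | h3
    · rw [h3] at hcon
      exact hcon R.zero_mem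
    · linarith

end Pool.Agent.Helper84.D4
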