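import Pool.Agent.Helper88.D4.Stmts4

/-!
# Project D4 (MP_e1889a_ag): the 4-vector field of a symplectic germ is the Pfaffian up to sign
-/

set_option autoImplicit false

namespace Pool.Agent.Helper84.D4

open Pool.Agent.Helper88.D4 Pool.Agent.Helper11.SY Pool.Agent.Helper20.LT

noncomputable section

variable {R : Type} [CommRing R] [Algebra ℂ R]

theorem br_swap (S : Symp R 2) (f g : R) : S.br f g = -S.br g f := by
  have h := S.self (f + g)
  have h1 : S.br (f + g) (f + g) = S.br f f + S.br f g + (S.br g f + S.br g g) := by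
    rw [map_add S.br f g, Derivation.add_apply, map_add, map_add]
  rw [h1, S.self, S.self, zero_add, add_zero] at h
  exact eq_neg_of_add_eq_zero_left h

/-- the Pfaffian of four functions -/
def pf4 (S : Symp R 2) (F : Fin 4 → R) : R :=
  S.br (F 0) (F 1) * S.br (F 2) (F 3) - S.br (F 0) (F 2) * S.br (F 1) (F 3) +
    S.br (F 0) (F 3) * S.br (F 1) (F 2)

omit [CommRing R] [Algebra ℂ R] in
theorem upd (F : Fin 4 → R) (x : R) :
    Function.update F 0 x = ![x, F 1, F 2, F 3] ∧ Function.update F 1 x = ![F 0, x, F 2, F 3] ∧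
    Function.update F 2 x = ![F 0, F 1, x, F 3] ∧ Function.update F 3 x = ![F 0, F 1, F 2, x] := by
  refine ⟨?_, ?_, ?_, ?_⟩ <;> (funext i; fin_cases i <;> rfl)

theorem pf4_vec (S : Symp R 2) (a b c d : R) : pf4 S ![a, b, c, d] =
    S.br a b * S.br c d - S.br a c * S.br b d + S.br a d * S.br b c := rfl

theorem pf4_der (S : Symp R 2) (F : Fin 4 → R) (i : Fin 4) (x y : R) :
    pf4 S (Function.update F i (x * y)) =
      x * pf4 S (Function.update F i y) + y * pf4 S (Function.update F i x) := by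
  have hl : ∀ x y z : R, S.br (x * y) z = x * S.br y z + y * S.br x z := by
    intro x y z
    rw [br_swap S (x * y), br_swap S y, br_swap S x, Derivation.leibniz, smul_eq_mul, smul_eq_mul]
    ring
  have hr : ∀ x y z : R, S.br z (x * y) = x * S.br z y + y * S.br z x := by
    intro x y z
    rw [Derivation.leibniz, smul_eq_mul, smul_eq_mul]
  fin_cases i
  all_goals
    simp only [Fin.zero_eta, Fin.mk_one, Fin.reduceFinMk, (upd F _).1, (upd F _).2.1,
      (upd F _).2.2.1, (upd F _).2.2.2, pf4_vec, hl, hr]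
    ring

/-- the Pfaffian as a 4-vector field -/
def pfA (S : Symp R 2) : R [⋀^Fin (2 * 2)]→ₗ[ℂ] R where
  toFun F := pf4 S F
  map_update_add' := by
    intro inst F i x y
    obtain rfl : inst = instDecidableEqFin (2 * 2) := Subsingleton.elim _ _
    have h : ∀ (F : Fin 4 → R) (i : Fin 4), pf4 S (Function.update F i (x + y)) =
        pf4 S (Function.update F i x) + pf4 S (Function.update F i y) := by
      intro F i
      fin_cases i
      all_goals
        simp only [Fin.zero_eta, Fin.mk_one, Fin.reduceFinMk, (upd F _).1, (upd F _).2.1,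
          (upd F _).2.2.1, (upd F _).2.2.2, pf4_vec, map_add, Derivation.add_apply]
        ring
    exact h F i
  map_update_smul' := by
    intro inst F i c x
    obtain rfl : inst = instDecidableEqFin (2 * 2) := Subsingleton.elim _ _
    have hl : ∀ y z : R, S.br (c • y) z = algebraMap ℂ R c * S.br y z := by
      intro y z
      rw [map_smul, Derivation.smul_apply, Algebra.smul_def]
    have hr : ∀ y z : R, S.br z (c • y) = algebraMap ℂ R c * S.br z y := by
      intro y z
      rw [Derivation.map_smul, Algebra.smul_def]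
    have h : ∀ (F : Fin 4 → R) (i : Fin 4), pf4 S (Function.update F i (c • x)) =
        algebraMap ℂ R c * pf4 S (Function.update F i x) := by
      intro F i
      fin_cases i
      all_goals
        simp only [Fin.zero_eta, Fin.mk_one, Fin.reduceFinMk, (upd F _).1, (upd F _).2.1,
          (upd F _).2.2.1, (upd F _).2.2.2, pf4_vec, hl, hr]
        ring
    exact (h F i).trans (Algebra.smul_def _ _).symm
  map_eq_zero_of_eq' := by
    intro F i j hF hij
    have h : ∀ (F : Fin 4 → R) (i j : Fin 4), F i = F j → i ≠ j → pf4 S F = 0 := by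
      intro F i j hF hij
      have h0 : ∀ i, S.br (F i) (F i) = 0 := fun i => S.self _
      have h1 : ∀ i j : Fin 4, S.br (F i) (F j) = -S.br (F j) (F i) := fun i j => br_swap S _ _
      rw [pf4]
      fin_cases i <;> fin_cases j <;>
        simp only [Fin.zero_eta, Fin.mk_one, Fin.reduceFinMk, ne_eq, not_true_eq_false] at hF hij <;>
        first
        | exact absurd rfl hij
        | (rw [hF, h0]; (try rw [h1 3 1]); (try rw [h1 3 2]); (try rw [h1 2 1]);
            (try rw [h1 1 0]); (try rw [h1 2 0]); ring)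
    exact h F i j hF hij

theorem det4 (S : Symp R 2) (F : Fin 4 → R) :
    (Matrix.of fun i j => S.br (F i) (F j)).det = pf4 S F ^ 2 := by
  have h0 : ∀ i, S.br (F i) (F i) = 0 := fun i => S.self _
  have h1 : ∀ i j : Fin 4, S.br (F i) (F j) = -S.br (F j) (F i) := fun i j => br_swap S _ _
  rw [Matrix.det_succ_row_zero]
  simp only [Fin.sum_univ_four, Matrix.det_fin_three, Matrix.submatrix_apply, Matrix.of_apply,
    Fin.succ_zero_eq_one, Fin.isValue]
  have e2 : (Fin.succ (1 : Fin 3) : Fin 4) = 2 := rfl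
  have e3 : (Fin.succ (2 : Fin 3) : Fin 4) = 3 := rfl
  have a00 : (Fin.succAbove (0 : Fin 4) 0 : Fin 4) = 1 := rfl
  have a01 : (Fin.succAbove (0 : Fin 4) 1 : Fin 4) = 2 := rfl
  have a02 : (Fin.succAbove (0 : Fin 4) 2 : Fin 4) = 3 := rfl
  have a10 : (Fin.succAbove (1 : Fin 4) 0 : Fin 4) = 0 := rfl
  have a11 : (Fin.succAbove (1 : Fin 4) 1 : Fin 4) = 2 := rfl
  have a12 : (Fin.succAbove (1 : Fin 4) 2 : Fin 4) = 3 := rfl
  have a20 : (Fin.succAbove (2 : Fin 4) 0 : Fin 4) = 0 := rfl
  have a21 : (Fin.succAbove (2 : Fin 4) 1 : Fin 4) = 1 := rfl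
  have a22 : (Fin.succAbove (2 : Fin 4) 2 : Fin 4) = 3 := rfl
  have a30 : (Fin.succAbove (3 : Fin 4) 0 : Fin 4) = 0 := rfl
  have a31 : (Fin.succAbove (3 : Fin 4) 1 : Fin 4) = 1 := rfl
  have a32 : (Fin.succAbove (3 : Fin 4) 2 : Fin 4) = 2 := rfl
  simp only [e2, e3, a00, a01, a02, a10, a11, a12, a20, a21, a22, a30, a31, a32, h0]
  rw [h1 1 0, h1 2 0, h1 3 0, h1 2 1, h1 3 1, h1 3 2, pf4]
  simp only [Fin.val_zero, Fin.val_one, Fin.val_two]
  have v3 : ((3 : Fin 4) : ℕ) = 3 := rfl
  rw [v3]
  ring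

/-- the Pfaffian is the 4-vector field up to sign, or the latter is `0` -/
theorem th_eq [IsDomain R] (S : Symp R 2) :
    (∀ F : Fin 4 → R, S.th F = 0) ∨ (∀ F : Fin 4 → R, S.th F = pf4 S F) ∨
      ∀ F : Fin 4 → R, S.th F = -pf4 S F := by
  obtain ⟨h, hh⟩ := S.gen (pfA S) (fun F i x y => by
    have := pf4_der S F i x y
    exact this)
  have hh' : ∀ F : Fin 4 → R, pf4 S F = h * S.th F := hh
  by_cases h0 : ∀ F : Fin 4 → R, S.th F = 0
  · exact Or.inl h0
  right
  push Not at h0
  obtain ⟨F, hF⟩ := h0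
  have h1 : S.th F ^ 2 = pf4 S F ^ 2 := (S.sq F).trans (det4 S F)
  rw [hh' F, mul_pow] at h1
  have h2 : S.th F ^ 2 ≠ 0 := pow_ne_zero 2 hF
  have h3 : h ^ 2 = 1 := by
    have h4 : h ^ 2 * S.th F ^ 2 = 1 * S.th F ^ 2 := by rw [one_mul]; exact h1.symm
    exact mul_right_cancel₀ h2 h4
  have h5 : (h - 1) * (h + 1) = 0 := by linear_combination h3
  rcases mul_eq_zero.1 h5 with h6 | h6
  on_goal 1 => have h4 : h = 1 := sub_eq_zero.1 h6
  on_goal 2 => have h4 : h = -1 := eq_neg_of_add_eq_zero_left h6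
  · left
    intro G
    rw [hh' G, h4, one_mul]
  · right
    intro G
    rw [hh' G, h4]
    ring

theorem pf_br (S : Symp R 2) (f : R) (F : Fin 4 → R) :
    S.br f (pf4 S F) = ∑ i, pf4 S (Function.update F i (S.br f (F i))) := by
  rw [Fin.sum_univ_four, (upd F _).1, (upd F _).2.1, (upd F _).2.2.1, (upd F _).2.2.2]
  simp only [pf4_vec]
  simp only [pf4, map_add, map_sub, Derivation.leibniz, smul_eq_mul]
  rw [S.jac f (F 0) (F 1), S.jac f (F 2) (F 3), S.jac f (F 0) (F 2), S.jac f (F 1) (F 3),
    S.jac f (F 0) (F 3), S.jac f (F 1) (F 2)]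
  ring

theorem pf_lio (S : Symp R 2) (E : Derivation ℂ R R) (hE : Liouville S E) (F : Fin 4 → R) :
    E (pf4 S F) = ∑ i, pf4 S (Function.update F i (E (F i))) - (2 : ℂ) • pf4 S F := by
  have h2 : ∀ x : R, (2 : ℂ) • x = 2 * x := by
    intro x
    rw [Algebra.smul_def, map_ofNat]
  rw [Fin.sum_univ_four, (upd F _).1, (upd F _).2.1, (upd F _).2.2.1, (upd F _).2.2.2, h2]
  simp only [pf4_vec]
  simp only [pf4, map_add, map_sub, Derivation.leibniz, smul_eq_mul]
  rw [hE (F 0) (F 1), hE (F 2) (F 3), hE (F 0) (F 2), hE (F 1) (F 3), hE (F 0) (F 3),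
    hE (F 1) (F 2)]
  ring

theorem s_THI : S_THI := by
  intro R _ _ _ S
  rcases th_eq S with h | h | h
  · refine ⟨fun f F => ?_, fun E _ F => ?_⟩
    · rw [h, map_zero]
      exact (Finset.sum_eq_zero fun i _ => h _).symm
    · have h1 : ∑ i, S.th (Function.update F i (E (F i))) = 0 :=
        Finset.sum_eq_zero fun i _ => h _
      rw [h, map_zero, smul_zero, sub_zero]
      exact h1.symm
  · refine ⟨fun f F => ?_, fun E hE F => ?_⟩
    · have h1 : ∑ i, S.th (Function.update F i (S.br f (F i))) =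
          ∑ i, pf4 S (Function.update F i (S.br f (F i))) :=
        Finset.sum_congr rfl fun i _ => h _
      rw [h F]
      exact (pf_br S f F).trans h1.symm
    · have h1 : ∑ i, S.th (Function.update F i (E (F i))) =
          ∑ i, pf4 S (Function.update F i (E (F i))) :=
        Finset.sum_congr rfl fun i _ => h _
      rw [h F]
      refine (pf_lio S E hE F).trans ?_
      rw [← h1]
  · refine ⟨fun f F => ?_, fun E hE F => ?_⟩
    · have h1 : ∑ i, S.th (Function.update F i (S.br f (F i))) =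
          ∑ i, -pf4 S (Function.update F i (S.br f (F i))) :=
        Finset.sum_congr rfl fun i _ => h _
      rw [Finset.sum_neg_distrib, ← pf_br] at h1
      rw [h F, map_neg]
      exact h1.symm
    · have h1 : ∑ i, S.th (Function.update F i (E (F i))) =
          ∑ i, -pf4 S (Function.update F i (E (F i))) :=
        Finset.sum_congr rfl fun i _ => h _
      rw [Finset.sum_neg_distrib] at h1
      rw [h F, map_neg, pf_lio S E hE F]
      refine Eq.trans ?_ (congrArg (fun t => t - (2 : ℂ) • (-pf4 S F)) h1.symm)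
      rw [smul_neg]
      abel

end

end Pool.Agent.Helper84.D4
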